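import Pool.Agent.R951.FH.Fin

/-!
# MP_15ac55_ag: the numbers of minimal relations stabilise along the diagonals (Q1, yes)
-/

set_option autoImplicit false

namespace Pool.Agent.Results.MP_15ac55_ag.Stabilises

open Pool.Agent.R951.FH MvPolynomial

/-- `[σ][τ] = [στ]` if the norms add up and `0` otherwise; `φ_d` is surjective onto the algebra of
class sums; and for all `d₀, n₀` the sequence `k ↦ r_{d₀ + 2k, n₀ + k}` is eventually constant, where
`r_{d,n} = dim (I_d / P₊ I_d)_n` and `I_d = ker φ_d`. -/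
theorem result :
    (∀ (d : ℕ) (σ τ : Equiv.Perm (Fin d)),
      sg σ * sg τ = if nm σ + nm τ = nm (σ * τ) then sg (σ * τ) else 0) ∧
    (∀ d : ℕ, Function.Surjective (phi d)) ∧
    ∀ d₀ n₀ : ℕ, ∃ c K : ℕ, ∀ k : ℕ, K ≤ k →
      rel (RingHom.ker (phi (d₀ + 2 * k))) (n₀ + k) = c :=
  ⟨fun _ σ τ => sg_mul σ τ, main.1, main.2⟩

end Pool.Agent.Results.MP_15ac55_ag.Stabilises
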